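import Mathlib
import Pool.Agent.H39.PP3

set_option autoImplicit false

namespace Pool.Agent.Results.MP_e72135_al.ProdCex
open Pool.Agent.H39.PP in
theorem result :
    (∃ (G H : Type) (_ : Group G) (_ : Group H) (_ : TopologicalSpace G) (_ : TopologicalSpace H),
      ContinuousMul G ∧ ContinuousMul H ∧
      (∀ B : Set G, B.Infinite → ∃ x, ∀ O ∈ nhds x, (O ∩ B).Infinite) ∧
      (∀ B : Set H, B.Infinite → ∃ x, ∀ O ∈ nhds x, (O ∩ B).Infinite) ∧
      ∃ U : ℕ → Set (G × H), Antitone U ∧ (∀ n, IsOpen (U n) ∧ (U n).Nonempty) ∧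
        (⋂ n, closure (U n)⁻¹) = ∅) ∧
    (∀ (J : Type) [Nontrivial J], ∃ (G : J → Type) (_ : ∀ j, Group (G j))
      (_ : ∀ j, TopologicalSpace (G j)),
      (∀ j, ContinuousMul (G j) ∧
      (∀ B : Set (G j), B.Infinite → ∃ x, ∀ O ∈ nhds x, (O ∩ B).Infinite)) ∧
      ∃ U : ℕ → Set (∀ j, G j), Antitone U ∧ (∀ n, IsOpen (U n) ∧ (U n).Nonempty) ∧
        (⋂ n, closure (U n)⁻¹) = ∅) := by
  refine ⟨⟨H true, H false, inferInstance, inferInstance, inferInstance, inferInstance,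
    inferInstance, inferInstance, cc1 true, cc1 false,
    not_pc pr pr_c pr_s pr_i⟩, fun J _ => ?_⟩
  obtain ⟨k, π, a, b, c⟩ := fam J
  exact ⟨fun j => H (k j), inferInstance, inferInstance,
    fun j => ⟨inferInstance, cc1 (k j)⟩, not_pc π a b c⟩

end Pool.Agent.Results.MP_e72135_al.ProdCex
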